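import Pool.Agent.H99.SC.Main

/-!
The generating signed critical number of every finite abelian group, up to one gap: with
`v` the maximum over the cyclic quotients it lies between `v + 1` and `max(v, n/s) + 1`, the upper
bound is the exact value when `G` maps onto some `Z_2 × Z_{2sb}`, and it can be lowered otherwise.
-/

namespace Pool.Agent.Results.MP_05a9e8_co.GeneralBound

open H99.SC

universe u

theorem result (G : Type u) [AddCommGroup G] [Fintype G] (s : ℕ) (hs : 3 ≤ s) :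
    vv (Fintype.card G) (AddMonoid.exponent G) s + 1 ≤ chi G s ∧
    ((∃ b : ℕ, 1 ≤ b ∧ ∃ φ : G →+ ZMod 2 × ZMod (2 * (s * b)), Function.Surjective φ) →
      chi G s = max (vv (Fintype.card G) (AddMonoid.exponent G) s) (Fintype.card G / s) + 1) ∧
    ((¬ ∃ b : ℕ, 1 ≤ b ∧ ∃ φ : G →+ ZMod 2 × ZMod (2 * (s * b)), Function.Surjective φ) →
      chi G s ≤ max (vv (Fintype.card G) (AddMonoid.exponent G) s)
        ((Fintype.card G + 3 - s) / s) + 1) ∧
    ((∃ d : ℕ, d ∣ AddMonoid.exponent G ∧ 2 * s + 2 ≤ d ∧ 2 ≤ d % (2 * s) ∧ d % (2 * s) ≤ s) →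
      chi G s = vv (Fintype.card G) (AddMonoid.exponent G) s + 1) := by
  refine ⟨chi_ge (by omega), ?_, fun h => chi_gen_le' hs h, ?_⟩
  · rintro ⟨b, hb, φ, hφ⟩
    exact chi_of_surj hs hb φ hφ
  · rintro ⟨d, h1, h2, h3, h4⟩
    exact chi_of_divisor hs h1 h2 h3 h4

end Pool.Agent.Results.MP_05a9e8_co.GeneralBound
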