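import Pool.Agent.H99.SC.Main

/-!
The generating signed critical number of `Z_3 × Z_M`, `3 ∣ M`.
-/

namespace Pool.Agent.Results.MP_05a9e8_co.ThreeByCyclic

open H99.SC

theorem result (M s : ℕ) (hs : 3 ≤ s) (hM0 : 0 < M) (hM : 3 ∣ M) :
    chi (ZMod 3 × ZMod M) s =
      max (vv (3 * M) M s)
        ((M.divisors.filter (fun D => 2 * s ≤ D ∧ (D % (2 * s) = 0 ∨ D % (2 * s) = 1))).sup
          (fun D => (6 * (D / (2 * s)) - 1) * (M / D))) + 1 :=
  chi_three hs hM0 hM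

end Pool.Agent.Results.MP_05a9e8_co.ThreeByCyclic
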