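import Pool.Agent.H99.SC.Main

/-!
The generating signed critical number of `Z_2 × Z_M`, `M` even.
-/

namespace Pool.Agent.Results.MP_05a9e8_co.TwoByCyclic

open H99.SC

theorem result (M s : ℕ) (hs : 3 ≤ s) (hM0 : 0 < M) (hM : 2 ∣ M) :
    chi (ZMod 2 × ZMod M) s =
      max (vv (2 * M) M s) (if 2 * s ∣ M then 2 * M / s else 0) + 1 :=
  chi_two hs hM0 hM

end Pool.Agent.Results.MP_05a9e8_co.TwoByCyclic
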